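import Pool.Agent.Helper59.CP.Bound

/-!
Circle patrolling with visibility radii: upper bound for the optimal idle time of `k` agents.
-/

namespace Pool.Agent.Results.MP_05d661_lc.MovingFrame

/-- For every nonempty set `S` of agents and every `u` between `0` and the least speed of an agent
of `S`, the optimal idle time is at most
`(1 - 2 ∑_{i ∈ S} ε i) / ∑_{i ∈ S} max u ((v i - u) / 2)` (and `0` if this is negative). -/
theorem result (k : ℕ) (v ε : Fin k → ℝ) (hv : ∀ i, 0 < v i) (hε : ∀ i, 0 ≤ ε i)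
    (S : Finset (Fin k)) (hS : S.Nonempty) (u : ℝ) (hu : 0 ≤ u) (huv : ∀ i ∈ S, u ≤ v i) :
    CP.Iopt v ε ≤
      ENNReal.ofReal ((1 - 2 * ∑ i ∈ S, ε i) / ∑ i ∈ S, max u ((v i - u) / 2)) :=
  CP.frame_bound hv hε S hS hu huv

end Pool.Agent.Results.MP_05d661_lc.MovingFrame
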