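import Pool.Agent.Helper59.CP.Family

/-!
Circle patrolling with visibility radii: one fast agent and `n` slow agents of equal speed.
-/

namespace Pool.Agent.Results.MP_05d661_lc.OneFastAgent

/-- One agent of speed `v 0 ≥ w` and `n ≥ 1` agents of speed `w > 0`, arbitrary visibility radii
with total uncovered length `1 - 2 ∑ ε > 0`. If no slow agent can be spared (the other agents
together cannot sweep the whole circle in one window of length `I`), the optimal idle time is
`I = (1 - 2 ∑ ε) / (n w + max w ((v 0 - w) / 2))`, and it is attained. -/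
theorem result (n : ℕ) (hn : 1 ≤ n) (v ε : Fin (n + 1) → ℝ) (w : ℝ) (hw : 0 < w)
    (hv₀ : w ≤ v 0) (hvs : ∀ i, i ≠ 0 → v i = w) (hε : ∀ i, 0 ≤ ε i)
    (hL : 0 < 1 - 2 * ∑ i, ε i)
    (hind : ∀ i, i ≠ 0 →
      (v 0 + (n - 1) * w) * ((1 - 2 * ∑ i, ε i) / (n * w + max w ((v 0 - w) / 2))) ≤
        1 - 2 * (∑ i, ε i) + 2 * ε i) :
    CP.Iopt v ε =
      ENNReal.ofReal ((1 - 2 * ∑ i, ε i) / (n * w + max w ((v 0 - w) / 2))) ∧
    ∃ a : Fin (n + 1) → ℝ → UnitAddCircle, CP.IsTraversal v a ∧ CP.idle ε a = CP.Iopt v ε :=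
  CP.fam_main hn hw hv₀ hvs hε hL hind

end Pool.Agent.Results.MP_05d661_lc.OneFastAgent
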