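import Pool.Agent.Helper59.CP.Final

/-!
Circle patrolling with visibility radii: the optimal idle time of two agents.
-/

namespace Pool.Agent.Results.MP_05d661_lc.TwoAgents

/-- The optimal idle time of two agents with maximal speeds `v₁ ≥ v₂ > 0` and visibility radii
`e₁, e₂ ≥ 0` on the circle of circumference one, and it is attained. -/
theorem result (v₁ v₂ e₁ e₂ : ℝ) (hv₂ : 0 < v₂) (hv : v₂ ≤ v₁) (he₁ : 0 ≤ e₁) (he₂ : 0 ≤ e₂) :
    CP.Iopt ![v₁, v₂] ![e₁, e₂] = ENNReal.ofReal (min ((1 - 2 * e₁) / v₁)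
      (min ((1 - 2 * e₁ - 2 * e₂) / (2 * v₂)) (2 * (1 - 2 * e₁ - 2 * e₂) / (v₁ + v₂)))) ∧
    ∃ a : Fin 2 → ℝ → UnitAddCircle, CP.IsTraversal ![v₁, v₂] a ∧
      CP.idle ![e₁, e₂] a = CP.Iopt ![v₁, v₂] ![e₁, e₂] :=
  CP.main hv₂ hv he₁ he₂

end Pool.Agent.Results.MP_05d661_lc.TwoAgents
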